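import Pool.Agent.H676.SC.Stm

set_option autoImplicit false

namespace Pool.Agent.H52.SC

open Pool.Agent.H676.SC

theorem mem_of_inv {V : Type} [Fintype V] [DecidableEq V] (Δ : Finset V) (a b : V) (hab : a ≠ b)
    (hc : Δ.card + 4 ≤ Fintype.card V)
    (h : ∀ ρ : Equiv.Perm V, Equiv.Perm.sign ρ = 1 → (∀ x ∈ Δ, ρ x = x) →
      ∀ G : SimpleGraph V, (G.Adj (ρ a) (ρ b) ↔ G.Adj a b)) : a ∈ Δ := by
  by_contra ha
  have h2 : 1 < ((insert a (insert b Δ))ᶜ : Finset V).card := by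
    rw [Finset.card_compl]
    have h3 := Finset.card_insert_le a (insert b Δ)
    have h4 := Finset.card_insert_le b Δ
    omega
  obtain ⟨c, hc1, d, hd1, hcd⟩ := Finset.one_lt_card.1 h2
  simp only [Finset.mem_compl, Finset.mem_insert, not_or] at hc1 hd1
  obtain ⟨hca, hcb, hcΔ⟩ := hc1
  obtain ⟨hda, hdb, hdΔ⟩ := hd1
  have hsign : Equiv.Perm.sign (Equiv.swap a c * Equiv.swap c d) = 1 := by
    rw [Equiv.Perm.sign_mul, Equiv.Perm.sign_swap (Ne.symm hca), Equiv.Perm.sign_swap hcd]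
    norm_num
  have hfix : ∀ x ∈ Δ, (Equiv.swap a c * Equiv.swap c d) x = x := by
    intro x hx
    have hxa : x ≠ a := fun e => ha (e ▸ hx)
    have hxc : x ≠ c := fun e => hcΔ (e ▸ hx)
    have hxd : x ≠ d := fun e => hdΔ (e ▸ hx)
    rw [Equiv.Perm.mul_apply, Equiv.swap_apply_of_ne_of_ne hxc hxd,
      Equiv.swap_apply_of_ne_of_ne hxa hxc]
  have hρa : (Equiv.swap a c * Equiv.swap c d) a = c := by
    rw [Equiv.Perm.mul_apply, Equiv.swap_apply_of_ne_of_ne (Ne.symm hca) (Ne.symm hda),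
      Equiv.swap_apply_left]
  have key := (h _ hsign hfix (SimpleGraph.fromEdgeSet {s(a, b)})).2 (by
    rw [SimpleGraph.fromEdgeSet_adj]
    exact ⟨rfl, hab⟩)
  rw [hρa, SimpleGraph.fromEdgeSet_adj] at key
  have h5 := key.1
  rw [Set.mem_singleton_iff, Sym2.eq_iff] at h5
  rcases h5 with ⟨h6, -⟩ | ⟨h6, -⟩
  · exact hca h6
  · exact hcb h6

theorem t_READ : Pool.Agent.H676.SC.S_READ := by
  intro V D L _ _ C g Δ hs hcard a b hread hab
  have h : ∀ ρ : Equiv.Perm V, Equiv.Perm.sign ρ = 1 → (∀ x ∈ Δ, ρ x = x) →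
      ∀ G : SimpleGraph V, (G.Adj (ρ a) (ρ b) ↔ G.Adj a b) := by
    intro ρ h1 h2 G
    have h3 := congrArg Prod.fst (hs ρ h1 h2)
    simp only [Circuit.wiring, hread, Option.map_some] at h3
    have h4 := congrFun (Option.some.inj h3) G
    simp only [bit, SimpleGraph.comap_adj, Equiv.Perm.coe_one, id_eq, decide_eq_decide] at h4
    exact h4
  refine ⟨mem_of_inv Δ a b hab hcard h, mem_of_inv Δ b a hab.symm hcard ?_⟩
  intro ρ h1 h2 G
  have h3 := h ρ h1 h2 G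
  rw [G.adj_comm (ρ b), G.adj_comm b]
  exact h3

end Pool.Agent.H52.SC
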